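import Pool.Agent.helper62.VD.SpecE2

/-!
# Project VD (MP_07c750_an), row SCN: the unit shell is connected
-/

set_option autoImplicit false

open MeasureTheory Filter Set Topology
open scoped ENNReal ContDiff InnerProductSpace

namespace Pool.Agent.VDE

open VD

noncomputable section

theorem SCN_proof (h1 : SNM_stmt) : SCN_stmt := by
  intro d G hG hd
  obtain ⟨hc, hz, hh, -, -⟩ := h1 d G hG
  have hn0 : ∀ p : P d, 0 ≤ nrm G p := fun p => Real.sqrt_nonneg _
  have hrank : 1 < Module.rank ℝ (V d) := by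
    rw [← Module.finrank_eq_rank, finrank_euclideanSpace_fin]
    exact_mod_cast hd
  have hpre : IsPreconnected ((univ : Set (V d)) ×ˢ Metric.sphere (0 : V d) 1) :=
    isPreconnected_univ.prod (isPreconnected_sphere hrank 0 1)
  have hne : ∀ x u : V d, u ∈ Metric.sphere (0 : V d) 1 → nrm G ((x, u) : P d) ≠ 0 := by
    intro x u hu h0
    have h2 : u = 0 := (hz (x, u)).1 h0
    rw [mem_sphere_zero_iff_norm, h2, norm_zero] at hu
    exact zero_ne_one hu
  have himg : {p : P d | nrm G p = 1} = (fun p : P d => ((p.1, (nrm G p)⁻¹ • p.2) : P d)) '' ((univ : Set (V d)) ×ˢ Metric.sphere (0 : V d) 1) := by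
    ext p
    constructor
    · intro hp
      have hp' : nrm G p = 1 := hp
      have hξ : p.2 ≠ 0 := by
        intro h0
        have := (hz p).2 h0
        rw [hp'] at this
        exact one_ne_zero this
      have hξn : ‖p.2‖ ≠ 0 := norm_ne_zero_iff.2 hξ
      refine ⟨(p.1, ‖p.2‖⁻¹ • p.2), ⟨mem_univ _, ?_⟩, ?_⟩
      · rw [mem_sphere_zero_iff_norm]
        show ‖‖p.2‖⁻¹ • p.2‖ = 1
        rw [norm_smul, norm_inv, norm_norm, inv_mul_cancel₀ hξn]
      · show ((p.1, (nrm G ((p.1, ‖p.2‖⁻¹ • p.2) : P d))⁻¹ • (‖p.2‖⁻¹ • p.2)) : P d) = p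
        have h2 : nrm G ((p.1, p.2) : P d) = 1 := hp'
        rw [hh p.1 p.2 ‖p.2‖⁻¹, h2, mul_one, abs_inv, abs_norm, inv_inv, smul_smul, mul_inv_cancel₀ hξn, one_smul]
    · rintro ⟨q, ⟨_, hq⟩, rfl⟩
      have hq0 := hne q.1 q.2 hq
      show nrm G ((q.1, (nrm G q)⁻¹ • q.2) : P d) = 1
      have h3 : nrm G ((q.1, q.2) : P d) = nrm G q := rfl
      rw [hh q.1 q.2 (nrm G q)⁻¹, h3, abs_inv, abs_of_nonneg (hn0 q)]
      exact inv_mul_cancel₀ hq0
  rw [himg]
  refine hpre.image _ ?_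
  have hcn : ContinuousOn (fun p : P d => (nrm G p)⁻¹) ((univ : Set (V d)) ×ˢ Metric.sphere (0 : V d) 1) :=
    hc.continuousOn.inv₀ fun p hp => hne p.1 p.2 hp.2
  exact continuous_fst.continuousOn.prodMk (hcn.smul continuous_snd.continuousOn)

end

end Pool.Agent.VDE
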